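import Mathlib

/-!
The greedy set avoiding `5w+2x=5y+2z`: with the recursion printed in the problem file (rounding
down) the posed identity fails at `10`; with rounding up (`a_1 = 3, a_2 = 13, a_3 = 59, ...`)
the identity holds.
-/

namespace Pool.Agent.Results.MP_cb51c9_co.GreedyEqualsDigitSet

/-- `S` is free of `5w+2x=5y+2z` (only trivial solutions `(w,x)=(y,z)` inside `S`). -/
def FreeOf (S : Set ℕ) : Prop :=
  ∀ w ∈ S, ∀ x ∈ S, ∀ y ∈ S, ∀ z ∈ S, 5 * w + 2 * x = 5 * y + 2 * z → (w, x) = (y, z)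

/-- `g` is the greedy sequence: `g 0 = 0` and `g (i+1)` is the least `m > g i` such that
`{g 0, ..., g i, m}` is free of `5w+2x=5y+2z`. -/
def IsGreedy (g : ℕ → ℕ) : Prop :=
  g 0 = 0 ∧ ∀ i, IsLeast {m | g i < m ∧ FreeOf (insert m {n | ∃ j ≤ i, g j = n})} (g (i + 1))

/-- The sequence printed in the problem file: `a_0 = 0`,
`a_i = ⌊(5 + 7 (a_0 + ... + a_{i-1})) / 2⌋`. -/
def aFloor : ℕ → ℕ
  | 0 => 0
  | i + 1 => ⌊((5 + 7 * ∑ j : Fin (i + 1), (aFloor j : ℚ)) / 2 : ℚ)⌋₊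

/-- The same with the ceiling: `a_0 = 0`, `a_i = ⌈(5 + 7 (a_0 + ... + a_{i-1})) / 2⌉`. -/
def aCeil : ℕ → ℕ
  | 0 => 0
  | i + 1 => ⌈((5 + 7 * ∑ j : Fin (i + 1), (aCeil j : ℚ)) / 2 : ℚ)⌉₊

/-- All finite sums of distinct terms `a_i`. -/
def subsetSums (a : ℕ → ℕ) : Set ℕ := {x | ∃ s : Finset ℕ, x = ∑ i ∈ s, a i}

/-- `{5x+y : x ∈ A, 0 ≤ y ≤ 4}` with `A` the set of finite sums of distinct terms `a_i`. -/
def digitSet (a : ℕ → ℕ) : Set ℕ := {n | ∃ x ∈ subsetSums a, ∃ y, y ≤ 4 ∧ n = 5 * x + y}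

/-! ### Arithmetic of the sequence -/

/-- Partial sums `a_0 + ... + a_{i-1}`. -/
def sg (i : ℕ) : ℕ := ∑ j ∈ Finset.range i, aCeil j

lemma sg_succ (i : ℕ) : sg (i + 1) = sg i + aCeil i := by
  unfold sg; rw [Finset.sum_range_succ]

lemma aCeil_zero : aCeil 0 = 0 := by unfold aCeil; rfl

lemma aCeil_bounds (i : ℕ) :
    7 * sg (i + 1) + 5 ≤ 2 * aCeil (i + 1) ∧ 2 * aCeil (i + 1) ≤ 7 * sg (i + 1) + 6 := by
  have h : aCeil (i + 1) = ⌈((5 + 7 * ∑ j : Fin (i + 1), (aCeil j : ℚ)) / 2 : ℚ)⌉₊ := by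
    rw [aCeil]
  have hs : (∑ j : Fin (i + 1), (aCeil j : ℚ)) = (sg (i + 1) : ℚ) := by
    unfold sg
    rw [Nat.cast_sum, Finset.sum_range]
  rw [hs] at h
  set s := sg (i + 1)
  set x : ℚ := (5 + 7 * (s : ℚ)) / 2 with hx
  have hx0 : 0 ≤ x := by positivity
  have h1 : x ≤ (aCeil (i + 1) : ℚ) := by rw [h]; exact Nat.le_ceil x
  have h2 : (aCeil (i + 1) : ℚ) < x + 1 := by rw [h]; exact Nat.ceil_lt_add_one hx0
  constructor
  · have : (7 * (s : ℚ) + 5) ≤ 2 * (aCeil (i + 1) : ℚ) := by rw [hx] at h1; linarith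
    exact_mod_cast this
  · have : 2 * (aCeil (i + 1) : ℚ) < 7 * (s : ℚ) + 7 := by rw [hx] at h2; linarith
    have h3 : 2 * aCeil (i + 1) < 7 * s + 7 := by exact_mod_cast this
    omega

lemma aCeil_upper (i : ℕ) : 2 * aCeil i ≤ 7 * sg i + 6 := by
  cases i with
  | zero => rw [aCeil_zero]; omega
  | succ i => exact (aCeil_bounds i).2

/-! ### Levels of the set of subset sums -/

/-- Sums of distinct `a_j` with `j < i`. -/
def lev : ℕ → Set ℕ
  | 0 => {0}
  | i + 1 => {x | ∃ e ≤ 1, ∃ x' ∈ lev i, x = e * aCeil i + x'}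

lemma lev_succ {i x : ℕ} : x ∈ lev (i + 1) ↔ ∃ e ≤ 1, ∃ x' ∈ lev i, x = e * aCeil i + x' := by
  rw [lev]; rfl

lemma lev_zero {x : ℕ} : x ∈ lev 0 ↔ x = 0 := by
  rw [lev]; rfl

lemma lev_le (i : ℕ) : ∀ x ∈ lev i, x ≤ sg i := by
  induction i with
  | zero => intro x hx; rw [lev_zero] at hx; omega
  | succ i ih =>
    intro x hx
    rw [lev_succ] at hx
    obtain ⟨e, he, x', hx', rfl⟩ := hx
    have := ih x' hx'
    rw [sg_succ]
    interval_cases e <;> omega

lemma lev_mono_succ (i : ℕ) : ∀ x ∈ lev i, x ∈ lev (i + 1) := by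
  intro x hx
  rw [lev_succ]
  exact ⟨0, by omega, x, hx, by omega⟩

lemma lev_mono {i j : ℕ} (h : i ≤ j) : ∀ x ∈ lev i, x ∈ lev j := by
  induction h with
  | refl => exact fun x hx => hx
  | step _ ih => intro x hx; exact lev_mono_succ _ x (ih x hx)

lemma lev_eq (i : ℕ) : ∀ x, x ∈ lev i ↔ ∃ s : Finset ℕ, (∀ j ∈ s, j < i) ∧ x = ∑ j ∈ s, aCeil j := by
  induction i with
  | zero =>
    intro x
    rw [lev_zero]
    constructor
    · rintro rfl
      exact ⟨∅, by simp, by simp⟩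
    · rintro ⟨s, hs, rfl⟩
      have : s = ∅ := Finset.eq_empty_of_forall_notMem fun j hj => by
        have := hs j hj
        omega
      subst this
      simp
  | succ i ih =>
    intro x
    rw [lev_succ]
    constructor
    · rintro ⟨e, he, x', hx', rfl⟩
      obtain ⟨s, hs, rfl⟩ := (ih x').1 hx'
      have hi : i ∉ s := fun h => by
        have := hs i h
        omega
      interval_cases e
      · exact ⟨s, fun j hj => by have := hs j hj; omega, by omega⟩
      · refine ⟨insert i s, ?_, ?_⟩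
        · intro j hj
          rw [Finset.mem_insert] at hj
          rcases hj with rfl | hj
          · omega
          · have := hs j hj
            omega
        · rw [Finset.sum_insert hi]
          omega
    · rintro ⟨s, hs, rfl⟩
      by_cases hi : i ∈ s
      · refine ⟨1, le_refl _, ∑ j ∈ s.erase i, aCeil j, ?_, ?_⟩
        · rw [ih]
          refine ⟨s.erase i, ?_, rfl⟩
          intro j hj
          rw [Finset.mem_erase] at hj
          have := hs j hj.2
          omega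
        · rw [one_mul, Finset.add_sum_erase s _ hi]
      · refine ⟨0, by omega, ∑ j ∈ s, aCeil j, ?_, by omega⟩
        rw [ih]
        refine ⟨s, ?_, rfl⟩
        intro j hj
        have h1 := hs j hj
        have h2 : j ≠ i := fun h => hi (h ▸ hj)
        omega

lemma mem_subsetSums {x : ℕ} : x ∈ subsetSums aCeil ↔ ∃ i, x ∈ lev i := by
  constructor
  · rintro ⟨s, rfl⟩
    refine ⟨s.sup id + 1, ?_⟩
    rw [lev_eq]
    refine ⟨s, ?_, rfl⟩
    intro j hj
    have : id j ≤ s.sup id := Finset.le_sup hj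
    simp only [id] at this
    omega
  · rintro ⟨i, hi⟩
    obtain ⟨s, _, rfl⟩ := (lev_eq i x).1 hi
    exact ⟨s, rfl⟩

/-! ### Freeness -/

lemma lev_free (i : ℕ) : ∀ W ∈ lev i, ∀ X ∈ lev i, ∀ Y ∈ lev i, ∀ Z ∈ lev i,
    5 * W + 2 * X ≤ 5 * Y + 2 * Z + 4 → 5 * Y + 2 * Z ≤ 5 * W + 2 * X + 4 → W = Y ∧ X = Z := by
  induction i with
  | zero =>
    intro W hW X hX Y hY Z hZ _ _
    rw [lev_zero] at *
    subst hW hX hY hZ
    exact ⟨rfl, rfl⟩
  | succ i ih =>
    intro W hW X hX Y hY Z hZ h1 h2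
    rw [lev_succ] at hW hX hY hZ
    obtain ⟨eW, heW, W', hW', rfl⟩ := hW
    obtain ⟨eX, heX, X', hX', rfl⟩ := hX
    obtain ⟨eY, heY, Y', hY', rfl⟩ := hY
    obtain ⟨eZ, heZ, Z', hZ', rfl⟩ := hZ
    have bW := lev_le i W' hW'
    have bX := lev_le i X' hX'
    have bY := lev_le i Y' hY'
    have bZ := lev_le i Z' hZ'
    rcases Nat.eq_zero_or_pos i with h0 | h0
    · subst h0
      rw [aCeil_zero] at *
      have := ih W' hW' X' hX' Y' hY' Z' hZ' (by omega) (by omega)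
      omega
    · obtain ⟨k, rfl⟩ : ∃ k, i = k + 1 := ⟨i - 1, by omega⟩
      have hb := (aCeil_bounds k).1
      have key := ih W' hW' X' hX' Y' hY' Z' hZ'
      have hc : eW = eY ∧ eX = eZ := by
        interval_cases eW <;> interval_cases eX <;> interval_cases eY <;> interval_cases eZ <;>
          omega
      obtain ⟨rfl, rfl⟩ := hc
      have := key (by omega) (by omega)
      omega

/-! ### Density -/

lemma lev_dense (i : ℕ) : ∀ t : ℤ, -5 * (sg i : ℤ) - 4 ≤ t → t ≤ 7 * (sg i : ℤ) + 4 →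
    ∃ W ∈ lev i, ∃ Y ∈ lev i, ∃ X ∈ lev i,
      t - (5 * (W : ℤ) - 5 * (Y : ℤ) + 2 * (X : ℤ)) ≤ 4 ∧
      -4 ≤ t - (5 * (W : ℤ) - 5 * (Y : ℤ) + 2 * (X : ℤ)) := by
  induction i with
  | zero =>
    intro t h1 h2
    have hz : sg 0 = 0 := by unfold sg; simp
    rw [hz] at h1 h2
    refine ⟨0, lev_zero.2 rfl, 0, lev_zero.2 rfl, 0, lev_zero.2 rfl, ?_, ?_⟩ <;> push_cast <;> omega
  | succ i ih =>
    intro t h1 h2
    rw [sg_succ] at h1 h2
    push_cast at h1 h2
    have hup := aCeil_upper i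
    -- choose the top coefficients
    have hsel : ∃ eW : ℕ, eW ≤ 1 ∧ ∃ eY : ℕ, eY ≤ 1 ∧ ∃ eX : ℕ, eX ≤ 1 ∧
        -5 * (sg i : ℤ) - 4 ≤ t - ((5 * (eW : ℤ) - 5 * (eY : ℤ) + 2 * (eX : ℤ)) * (aCeil i : ℤ)) ∧
        t - ((5 * (eW : ℤ) - 5 * (eY : ℤ) + 2 * (eX : ℤ)) * (aCeil i : ℤ)) ≤ 7 * (sg i : ℤ) + 4 := by
      by_cases c1 : t ≤ -5 * (aCeil i : ℤ) + (7 * (sg i : ℤ) + 4)
      · exact ⟨0, by omega, 1, by omega, 0, by omega, by push_cast; omega, by push_cast; omega⟩
      by_cases c2 : t ≤ -3 * (aCeil i : ℤ) + (7 * (sg i : ℤ) + 4)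
      · exact ⟨0, by omega, 1, by omega, 1, by omega, by push_cast; omega, by push_cast; omega⟩
      by_cases c3 : t ≤ (7 * (sg i : ℤ) + 4)
      · exact ⟨0, by omega, 0, by omega, 0, by omega, by push_cast; omega, by push_cast; omega⟩
      by_cases c4 : t ≤ 2 * (aCeil i : ℤ) + (7 * (sg i : ℤ) + 4)
      · exact ⟨0, by omega, 0, by omega, 1, by omega, by push_cast; omega, by push_cast; omega⟩
      by_cases c5 : t ≤ 5 * (aCeil i : ℤ) + (7 * (sg i : ℤ) + 4)
      · exact ⟨1, by omega, 0, by omega, 0, by omega, by push_cast; omega, by push_cast; omega⟩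
      · exact ⟨1, by omega, 0, by omega, 1, by omega, by push_cast; omega, by push_cast; omega⟩
    obtain ⟨eW, heW, eY, heY, eX, heX, s1, s2⟩ := hsel
    obtain ⟨W, hW, Y, hY, X, hX, k1, k2⟩ := ih _ s1 s2
    refine ⟨eW * aCeil i + W, lev_succ.2 ⟨eW, heW, W, hW, rfl⟩,
      eY * aCeil i + Y, lev_succ.2 ⟨eY, heY, Y, hY, rfl⟩,
      eX * aCeil i + X, lev_succ.2 ⟨eX, heX, X, hX, rfl⟩, ?_, ?_⟩
    · push_cast
      linarith
    · push_cast
      linarith

/-! ### Maximality -/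

lemma lev_max (i : ℕ) : ∀ X, X < aCeil (i + 1) → X ∉ lev (i + 1) →
    ∃ W ∈ lev (i + 1), ∃ Y ∈ lev (i + 1), ∃ X' ∈ lev (i + 1), W < X ∧ Y < X ∧ X' < X ∧
      2 * X + 5 * Y ≤ 2 * X' + 5 * W + 4 ∧ 2 * X' + 5 * W ≤ 2 * X + 5 * Y + 4 := by
  induction i with
  | zero =>
    intro X hX hX'
    have hs : sg 1 = 0 := by unfold sg; simp [aCeil_zero]
    have hb := (aCeil_bounds 0).2
    have hX1 : X ≠ 0 := by
      rintro rfl
      exact hX' (lev_mono (Nat.zero_le 1) 0 (lev_zero.2 rfl))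
    have h0 : (0 : ℕ) ∈ lev (0 + 1) := lev_mono (Nat.zero_le 1) 0 (lev_zero.2 rfl)
    simp only [zero_add] at hX hb
    rw [hs] at hb
    exact ⟨0, h0, 0, h0, 0, h0, by omega, by omega, by omega, by omega, by omega⟩
  | succ i ih =>
    intro X hX hX'
    have hb := aCeil_bounds i
    have hb' := aCeil_bounds (i + 1)
    by_cases hc : sg (i + 1 + 1) < X
    · obtain ⟨W, hW, Y, hY, X', hX'', k1, k2⟩ := lev_dense (i + 1 + 1) (2 * (X : ℤ))
        (by omega) (by omega)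
      have b1 := lev_le _ W hW
      have b2 := lev_le _ Y hY
      have b3 := lev_le _ X' hX''
      exact ⟨W, hW, Y, hY, X', hX'', by omega, by omega, by omega, by omega, by omega⟩
    · rw [sg_succ] at hc
      by_cases hd : X < aCeil (i + 1)
      · obtain ⟨W, hW, Y, hY, X', hX'', k⟩ := ih X hd (fun h => hX' (lev_mono_succ _ X h))
        exact ⟨W, lev_mono_succ _ W hW, Y, lev_mono_succ _ Y hY, X', lev_mono_succ _ X' hX'', k⟩
      · obtain ⟨V, rfl⟩ : ∃ V, X = aCeil (i + 1) + V := ⟨X - aCeil (i + 1), by omega⟩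
        have hV : V ∉ lev (i + 1) := fun h =>
          hX' (lev_succ.2 ⟨1, le_refl _, V, h, by omega⟩)
        obtain ⟨W, hW, Y, hY, X', hX'', k1, k2, k3, k4, k5⟩ := ih V (by omega) hV
        refine ⟨W, lev_mono_succ _ W hW, Y, lev_mono_succ _ Y hY, 1 * aCeil (i + 1) + X',
          lev_succ.2 ⟨1, le_refl _, X', hX'', rfl⟩, ?_, ?_, ?_, ?_, ?_⟩ <;> omega

lemma aCeil_ge (i : ℕ) : i ≤ aCeil i := by
  induction i with
  | zero => omega
  | succ i ih =>
    have h1 := (aCeil_bounds i).1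
    rw [sg_succ] at h1
    omega

/-! ### The digit set -/

lemma digit_free : FreeOf (digitSet aCeil) := by
  intro w hw x hx y hy z hz h
  obtain ⟨W, hW, p, hp, rfl⟩ := hw
  obtain ⟨X, hX, r, hr, rfl⟩ := hx
  obtain ⟨Y, hY, q, hq, rfl⟩ := hy
  obtain ⟨Z, hZ, s, hs, rfl⟩ := hz
  rw [mem_subsetSums] at hW hX hY hZ
  obtain ⟨i1, hW⟩ := hW
  obtain ⟨i2, hX⟩ := hX
  obtain ⟨i3, hY⟩ := hY
  obtain ⟨i4, hZ⟩ := hZ
  have hW := lev_mono (show i1 ≤ i1 + i2 + i3 + i4 by omega) W hW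
  have hX := lev_mono (show i2 ≤ i1 + i2 + i3 + i4 by omega) X hX
  have hY := lev_mono (show i3 ≤ i1 + i2 + i3 + i4 by omega) Y hY
  have hZ := lev_mono (show i4 ≤ i1 + i2 + i3 + i4 by omega) Z hZ
  have hrs : r = s := by omega
  subst hrs
  obtain ⟨rfl, rfl⟩ := lev_free _ W hW X hX Y hY Z hZ (by omega) (by omega)
  have : p = q := by omega
  subst this
  rfl

lemma digit_max (n : ℕ) (hn : n ∉ digitSet aCeil) :
    ∃ w ∈ digitSet aCeil, ∃ x ∈ digitSet aCeil, ∃ y ∈ digitSet aCeil,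
      w < n ∧ x < n ∧ y < n ∧ 5 * w + 2 * x = 5 * y + 2 * n := by
  have hX : n / 5 ∉ lev (n / 5 + 1) := by
    intro h
    exact hn ⟨n / 5, mem_subsetSums.2 ⟨_, h⟩, n % 5, by omega, by omega⟩
  have hlt : n / 5 < aCeil (n / 5 + 1) := by
    have := aCeil_ge (n / 5 + 1)
    omega
  obtain ⟨W, hW, Y, hY, X', hX', k1, k2, k3, k4, k5⟩ := lev_max (n / 5) (n / 5) hlt hX
  have hW' : W ∈ subsetSums aCeil := mem_subsetSums.2 ⟨_, hW⟩
  have hY' : Y ∈ subsetSums aCeil := mem_subsetSums.2 ⟨_, hY⟩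
  have hX'' : X' ∈ subsetSums aCeil := mem_subsetSums.2 ⟨_, hX'⟩
  refine ⟨5 * W + ((2 * (n / 5) + 5 * Y) - (2 * X' + 5 * W)),
    ⟨W, hW', (2 * (n / 5) + 5 * Y) - (2 * X' + 5 * W), by omega, rfl⟩,
    5 * X' + n % 5, ⟨X', hX'', n % 5, by omega, rfl⟩,
    5 * Y + ((2 * X' + 5 * W) - (2 * (n / 5) + 5 * Y)),
    ⟨Y, hY', (2 * X' + 5 * W) - (2 * (n / 5) + 5 * Y), by omega, rfl⟩, ?_, ?_, ?_, ?_⟩ <;> omega

lemma zero_mem : 0 ∈ digitSet aCeil :=
  ⟨0, ⟨∅, by simp⟩, 0, by omega, by omega⟩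

lemma digit_infinite : (digitSet aCeil).Infinite := by
  refine Set.infinite_of_forall_exists_gt fun n => ?_
  refine ⟨5 * aCeil (n + 1) + 0, ⟨aCeil (n + 1), ⟨{n + 1}, by simp⟩, 0, by omega, rfl⟩, ?_⟩
  have := aCeil_ge (n + 1)
  omega

lemma free_mono {S T : Set ℕ} (h : S ⊆ T) (hT : FreeOf T) : FreeOf S :=
  fun w hw x hx y hy z hz => hT w (h hw) x (h hx) y (h hy) z (h hz)

/-- The increasing enumeration of the digit set. -/
noncomputable def enum (i : ℕ) : ℕ := Nat.nth (fun n => n ∈ digitSet aCeil) i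

lemma enum_mem (i : ℕ) : enum i ∈ digitSet aCeil :=
  Nat.nth_mem_of_infinite (p := fun n => n ∈ digitSet aCeil) digit_infinite i

lemma enum_strictMono : StrictMono enum :=
  Nat.nth_strictMono (p := fun n => n ∈ digitSet aCeil) digit_infinite

lemma enum_range : Set.range enum = digitSet aCeil :=
  Nat.range_nth_of_infinite (p := fun n => n ∈ digitSet aCeil) digit_infinite

lemma enum_greedy : IsGreedy enum := by
  constructor
  · have h0 : (0 : ℕ) ∈ Set.range enum := by rw [enum_range]; exact zero_mem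
    obtain ⟨j, hj⟩ := h0
    have := enum_strictMono.monotone (Nat.zero_le j)
    omega
  · intro i
    constructor
    · refine ⟨enum_strictMono (Nat.lt_succ_self i), ?_⟩
      refine free_mono ?_ digit_free
      intro n hn
      rcases hn with rfl | ⟨j, _, rfl⟩
      · exact enum_mem _
      · exact enum_mem _
    · rintro m ⟨hm1, hm2⟩
      by_contra hlt
      push Not at hlt
      have hsmall : ∀ n ∈ digitSet aCeil, n ≤ m → n ∈ (insert m {n | ∃ j ≤ i, enum j = n} : Set ℕ) ∧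
          n < m := by
        intro n hn hnm
        rw [← enum_range] at hn
        obtain ⟨j, rfl⟩ := hn
        have hj : j ≤ i := by
          by_contra hji
          have := enum_strictMono.monotone (show i + 1 ≤ j by omega)
          omega
        refine ⟨Or.inr ⟨j, hj, rfl⟩, ?_⟩
        have := enum_strictMono.monotone hj
        omega
      have hmS : m ∉ digitSet aCeil := fun h => absurd (hsmall m h le_rfl).2 (lt_irrefl m)
      obtain ⟨w, hw, x, hx, y, hy, lw, lx, ly, he⟩ := digit_max m hmS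
      have := hm2 w (hsmall w hw lw.le).1 x (hsmall x hx lx.le).1 y (hsmall y hy ly.le).1 m
        (Or.inl rfl) he
      have h2 : x = m := congrArg Prod.snd this
      omega

lemma greedy_unique {g : ℕ → ℕ} (hg : IsGreedy g) : g = enum := by
  have key : ∀ n, ∀ j ≤ n, g j = enum j := by
    intro n
    induction n with
    | zero =>
      intro j hj
      have : j = 0 := by omega
      subst this
      rw [hg.1, enum_greedy.1]
    | succ n ih =>
      intro j hj
      rcases Nat.lt_or_ge j (n + 1) with h | h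
      · exact ih j (by omega)
      · have : j = n + 1 := by omega
        subst this
        have h1 := hg.2 n
        have h2 := enum_greedy.2 n
        have hset : {m | ∃ j ≤ n, g j = m} = {m | ∃ j ≤ n, enum j = m} := by
          ext m
          constructor
          · rintro ⟨j, hj, rfl⟩
            exact ⟨j, hj, (ih j hj).symm⟩
          · rintro ⟨j, hj, rfl⟩
            exact ⟨j, hj, ih j hj⟩
        rw [hset, ih n le_rfl] at h1
        exact h1.unique h2
  funext n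
  exact key n n le_rfl

/-- The greedy sequence `g` exists and is unique; its range `G` is not the set described with the
recursion as printed (rounding down), since `10` lies in that set but not in `G`; and `G` is
exactly `{5x+y : x ∈ A, 0 ≤ y ≤ 4}` when the recursion rounds up. -/
theorem result :
    (∃! g : ℕ → ℕ, IsGreedy g) ∧
      ∀ g : ℕ → ℕ, IsGreedy g →
        (10 ∈ digitSet aFloor ∧ 10 ∉ Set.range g) ∧ Set.range g = digitSet aCeil := by
  refine ⟨⟨enum, enum_greedy, fun g hg => greedy_unique hg⟩, ?_⟩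
  intro g hg
  rw [greedy_unique hg, enum_range]
  refine ⟨⟨?_, ?_⟩, rfl⟩
  · have h1 : aFloor 1 = 2 := by
      have h0 : aFloor 0 = 0 := by unfold aFloor; rfl
      have : aFloor 1 = ⌊((5 + 7 * ∑ j : Fin (0 + 1), (aFloor j : ℚ)) / 2 : ℚ)⌋₊ := by
        rw [aFloor]
      rw [this]
      have hs : (∑ j : Fin (0 + 1), (aFloor j : ℚ)) = 0 := by
        simp [h0]
      rw [hs, Nat.floor_eq_iff (by norm_num)]
      norm_num
    exact ⟨2, ⟨{1}, by simp [h1]⟩, 0, by omega, by omega⟩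
  · intro h10
    have h4 : (4 : ℕ) ∈ digitSet aCeil := ⟨0, ⟨∅, by simp⟩, 4, le_rfl, by omega⟩
    have := digit_free 4 h4 0 zero_mem 0 zero_mem 10 h10 (by norm_num)
    simp at this

end Pool.Agent.Results.MP_cb51c9_co.GreedyEqualsDigitSet
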